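import Pool.Agent.Lib.MP_2568bd_an.Defs
import Pool.Agent.Lib.MP_2568bd_an.Main

/-!
# MP_2568bd_an: the Daugavet property does not pass to projective tensor products

Over both scalar fields there are Banach spaces `X` and `Y` with the Daugavet property whose
projective tensor product fails it. Here `X = C[0,1]` and `Y` is the space of the continuous
functions `f` on `S ^ 3 × [0,1]`, `S` the unit sphere of the scalar field, such that
`s ↦ f (s, 0) + f (s, 1)` is a linear combination of the three coordinates of `s`.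
-/

set_option autoImplicit false

open Pool.Agent.MP_2568bd_an Pool.Agent.Lib.MP_2568bd_an

/-- Disproof of Q1, over the real and over the complex scalars. -/
theorem Pool.Agent.Results.MP_2568bd_an.TensorFails.result (𝕜 : Type) [RCLike 𝕜] :
    ∃ (X Y : Type) (_ : NormedAddCommGroup X) (_ : NormedSpace 𝕜 X) (_ : CompleteSpace X)
      (_ : NormedAddCommGroup Y) (_ : NormedSpace 𝕜 Y) (_ : CompleteSpace Y),
      Daugavet 𝕜 X ∧ Daugavet 𝕜 Y ∧ ¬ Daugavet 𝕜 (CompletedProj 𝕜 X Y) := by
  refine ⟨C(unitInterval, 𝕜), YY 𝕜, inferInstance, inferInstance, inferInstance, inferInstance,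
    inferInstance, inferInstance, daugavet_X 𝕜, daugavet_Y 𝕜, ?_⟩
  apply not_daugavet (YY 𝕜).subtypeₗᵢ (eps 𝕜) (fun i => rfl)
  · intro g hg
    exact ⟨⟨g, mem_YY_of_ends 𝕜 hg⟩, rfl⟩
  · intro z s
    exact (mem_YY 𝕜 z.1).1 z.2 s
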